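import Mathlib

/-!
# Virtual retracts: basic criteria
-/

set_option autoImplicit false

namespace Pool.Agent.Q117.VRCA

universe u

/-- `H` is a virtual retract of `G`: there are a subgroup `K` of finite index containing `H` and a
homomorphism `ρ : K → H` with `ρ h = h` for all `h ∈ H`. -/
def IsVirtualRetract {G : Type u} [Group G] (H : Subgroup G) : Prop :=
  ∃ K : Subgroup G, K.FiniteIndex ∧ ∃ hHK : H ≤ K, ∃ ρ : K →* H, ∀ h : H, ρ ⟨h, hHK h.2⟩ = h

/-- Property (VRC): every cyclic subgroup is a virtual retract. -/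
def VRC (G : Type u) [Group G] : Prop := ∀ g : G, IsVirtualRetract (Subgroup.zpowers g)

section

variable {G : Type u} [Group G]

theorem conj_zpow_mem {L : Subgroup G} {g : G} (h1 : ∀ l ∈ L, g * l * g⁻¹ ∈ L)
    (h2 : ∀ l ∈ L, g⁻¹ * l * g ∈ L) (j : ℤ) : ∀ l ∈ L, g ^ j * l * (g ^ j)⁻¹ ∈ L := by
  induction j with
  | zero => intro l hl; simpa using hl
  | succ i ih =>
    intro l hl
    have := ih _ (h1 l hl)
    rw [zpow_add, zpow_one, mul_inv_rev]
    convert this using 1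
    group
  | pred i ih =>
    intro l hl
    have := ih _ (h2 l hl)
    rw [zpow_sub, zpow_one, mul_inv_rev, inv_inv]
    convert this using 1
    group

theorem retract_of_complement (L : Subgroup G) (g : G) (h1 : ∀ l ∈ L, g * l * g⁻¹ ∈ L)
    (h2 : ∀ l ∈ L, g⁻¹ * l * g ∈ L) (h3 : ∀ n : ℤ, g ^ n ∈ L → g ^ n = 1)
    (K0 : Subgroup G) (hK0 : K0.FiniteIndex)
    (h4 : ∀ x ∈ K0, ∃ l ∈ L, ∃ j : ℤ, x = l * g ^ j) :
    IsVirtualRetract (Subgroup.zpowers g) := by
  have hc := conj_zpow_mem h1 h2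
  let K : Subgroup G :=
    { carrier := {x | ∃ l ∈ L, ∃ j : ℤ, x = l * g ^ j}
      mul_mem' := by
        rintro x y ⟨l, hl, j, rfl⟩ ⟨l', hl', j', rfl⟩
        refine ⟨l * (g ^ j * l' * (g ^ j)⁻¹), L.mul_mem hl (hc j l' hl'), j + j', ?_⟩
        rw [zpow_add]; group
      one_mem' := ⟨1, L.one_mem, 0, by simp⟩
      inv_mem' := by
        rintro x ⟨l, hl, j, rfl⟩
        refine ⟨g ^ (-j) * l⁻¹ * (g ^ (-j))⁻¹, hc (-j) _ (L.inv_mem hl), -j, ?_⟩
        group }
  have hmem : ∀ x : K, ∃ j : ℤ, ∃ l ∈ L, (x : G) = l * g ^ j := by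
    rintro ⟨x, l, hl, j, hx⟩
    exact ⟨j, l, hl, hx⟩
  choose J hJ using hmem
  have uniq : ∀ (l l' : G) (j j' : ℤ), l ∈ L → l' ∈ L → l * g ^ j = l' * g ^ j' →
      g ^ j = g ^ j' := by
    intro l l' j j' hl hl' h
    have h5 : g ^ (j - j') = l⁻¹ * l' := by
      rw [zpow_sub]
      have : g ^ j = l⁻¹ * (l' * g ^ j') := by rw [← h]; group
      rw [this]; group
    have h6 := h3 (j - j') (by rw [h5]; exact L.mul_mem (L.inv_mem hl) hl')
    rw [zpow_sub] at h6
    exact mul_inv_eq_one.1 h6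
  refine ⟨K, Subgroup.finiteIndex_of_le (H := K0) (fun x hx => h4 x hx), ?_, ?_⟩
  · rintro x ⟨j, rfl⟩
    exact ⟨1, L.one_mem, j, by simp⟩
  refine ⟨MonoidHom.mk' (fun x => ⟨g ^ J x, ⟨J x, rfl⟩⟩) ?_, ?_⟩
  · intro x y
    apply Subtype.ext
    obtain ⟨l, hl, hx⟩ := hJ x
    obtain ⟨l', hl', hy⟩ := hJ y
    obtain ⟨l'', hl'', hxy⟩ := hJ (x * y)
    have h7 : l'' * g ^ J (x * y) = (l * (g ^ J x * l' * (g ^ J x)⁻¹)) * g ^ (J x + J y) := by
      rw [← hxy, Subgroup.coe_mul]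
      nth_rewrite 1 [hx]
      nth_rewrite 1 [hy]
      rw [zpow_add]; group
    have := uniq _ _ _ _ hl'' (L.mul_mem hl (hc _ l' hl')) h7
    simp only [Subgroup.coe_mul]
    rw [this, zpow_add]
  · rintro ⟨h, j, rfl⟩
    apply Subtype.ext
    simp only [MonoidHom.mk'_apply]
    obtain ⟨l, hl, hx⟩ := hJ ⟨g ^ j, ⟨1, L.one_mem, j, by simp⟩⟩
    exact uniq l 1 _ _ hl L.one_mem (by rw [← hx]; simp)

end

/-- The group of permutations of `X × ℤ` commuting with the translations of `ℤ`, in coordinates: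
`(perm, coc)` acts by `(x, z) ↦ (perm x, z + coc x)`. -/
@[ext] structure Wr (X : Type u) where
  perm : Equiv.Perm X
  coc : X → ℤ

namespace Wr

variable {X : Type u}

instance : Mul (Wr X) := ⟨fun a b => ⟨a.perm * b.perm, fun x => a.coc (b.perm x) + b.coc x⟩⟩
instance : One (Wr X) := ⟨⟨1, fun _ => 0⟩⟩
instance : Inv (Wr X) := ⟨fun a => ⟨a.perm⁻¹, fun x => - a.coc (a.perm⁻¹ x)⟩⟩

@[simp] theorem mul_perm (a b : Wr X) : (a * b).perm = a.perm * b.perm := rfl
@[simp] theorem mul_coc (a b : Wr X) (x : X) : (a * b).coc x = a.coc (b.perm x) + b.coc x := rfl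
@[simp] theorem one_perm : (1 : Wr X).perm = 1 := rfl
@[simp] theorem one_coc (x : X) : (1 : Wr X).coc x = 0 := rfl
@[simp] theorem inv_perm (a : Wr X) : (a⁻¹).perm = a.perm⁻¹ := rfl
@[simp] theorem inv_coc (a : Wr X) (x : X) : (a⁻¹).coc x = - a.coc (a.perm⁻¹ x) := rfl

instance : Group (Wr X) := Group.ofLeftAxioms
  (by
    intro a b c
    apply Wr.ext
    · simp [mul_assoc]
    · funext x; simp [add_assoc])
  (by
    intro a
    apply Wr.ext
    · simp
    · funext x; simp)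
  (by
    intro a
    apply Wr.ext
    · simp
    · funext x; simp)

/-- the underlying permutation, as a homomorphism -/
def permHom (X : Type u) : Wr X →* Equiv.Perm X := ⟨⟨Wr.perm, rfl⟩, fun _ _ => rfl⟩

@[simp] theorem permHom_apply (a : Wr X) : permHom X a = a.perm := rfl

end Wr

section

variable {G : Type u} [Group G]

/-- some power of `g` fixes a point of a finite `G`-set and translates its fibre non-trivially -/
def InfWr (g : G) : Prop := ∃ (X : Type u) (_ : Finite X) (Φ : G →* Wr X) (x : X) (m : ℕ),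
  0 < m ∧ (Φ (g ^ m)).perm x = x ∧ (Φ (g ^ m)).coc x ≠ 0

/-- the powers of `g` are separated from `1` by one finite quotient -/
def FinSep (g : G) : Prop := ∃ L : Subgroup G, L.Normal ∧ L.FiniteIndex ∧
  ∀ n : ℤ, g ^ n ∈ L → g ^ n = 1

theorem FinSep.retract {g : G} (h : FinSep g) : IsVirtualRetract (Subgroup.zpowers g) := by
  obtain ⟨L, hL, hfi, h3⟩ := h
  refine retract_of_complement L g (fun l hl => hL.conj_mem l hl g) (fun l hl => ?_) h3 L hfi
    (fun x hx => ⟨x, hx, 0, by simp⟩)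
  simpa using hL.conj_mem l hl g⁻¹

theorem FinSep.conj {g : G} (h : FinSep g) (a : G) : FinSep (a * g * a⁻¹) := by
  obtain ⟨L, hL, hfi, h3⟩ := h
  refine ⟨L, hL, hfi, fun n hn => ?_⟩
  rw [conj_zpow] at hn ⊢
  have : g ^ n ∈ L := by
    have := hL.conj_mem _ hn a⁻¹
    simpa [mul_assoc] using this
  rw [h3 n this]; simp

theorem InfWr.conj {g : G} (h : InfWr g) (a : G) : InfWr (a * g * a⁻¹) := by
  obtain ⟨X, hX, Φ, x, m, hm, hp, hc⟩ := h
  rw [map_pow] at hp hc
  refine ⟨X, hX, Φ, (Φ a).perm x, m, hm, ?_, ?_⟩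
  · rw [conj_pow]; simp [map_mul, hp]
  · rw [conj_pow]
    simpa [map_mul, hp] using hc

theorem InfWr.retract {g : G} (h : InfWr g) : IsVirtualRetract (Subgroup.zpowers g) := by
  obtain ⟨X, hX, Φ, x, m, hm, hp, hc⟩ := h
  set N : Subgroup G := ((Wr.permHom X).comp Φ).ker with hN
  have hNfi : N.FiniteIndex := Subgroup.finiteIndex_ker _
  have hNn : N.Normal := MonoidHom.normal_ker _
  have memN : ∀ h : G, h ∈ N ↔ (Φ h).perm = 1 := fun h => MonoidHom.mem_ker
  set κ : ℤ := (Φ (g ^ m)).coc x with hκ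
  set c : G → X → ℤ := fun h y => (Φ h).coc y with hcd
  have cmul : ∀ h h' y, c (h * h') y = c h ((Φ h').perm y) + c h' y := by
    intro h h' y; simp [hcd, map_mul]
  have cN : ∀ h ∈ N, ∀ h' y, c (h' * h) y = c h' y + c h y := by
    intro h hh h' y
    rw [cmul, (memN h).1 hh]; rfl
  -- powers
  have cpow : ∀ n : ℤ, (Φ (g ^ n)).perm x = x → ∀ j : ℤ, c ((g ^ n) ^ j) x = j * c (g ^ n) x ∧
      (Φ ((g ^ n) ^ j)).perm x = x := by
    intro n hn j
    have hfix : ∀ j : ℤ, (Φ ((g ^ n) ^ j)).perm x = x := by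
      intro j
      have h1 : (Φ ((g ^ n) ^ j)).perm = (Φ (g ^ n)).perm ^ j := by
        have := map_zpow ((Wr.permHom X).comp Φ) (g ^ n) j
        exact this
      rw [h1]
      exact Function.IsFixedPt.perm_zpow hn j
    refine ⟨?_, hfix j⟩
    induction j with
    | zero => simp [hcd]
    | succ i ih =>
      rw [zpow_add, zpow_one, cmul, hn, ih]
      ring
    | pred i ih =>
      have h1 : (g ^ n) ^ (-(i : ℤ)) = (g ^ n) ^ (-(i : ℤ) - 1) * g ^ n := by
        rw [← zpow_add_one]; congr 1; ring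
      rw [h1, cmul, hn] at ih
      have : c ((g ^ n) ^ (-(i : ℤ) - 1)) x = -(i : ℤ) * c (g ^ n) x - c (g ^ n) x := by
        linarith
      rw [this]; ring
  have hpz : (Φ (g ^ (m : ℤ))).perm x = x := by rw [zpow_natCast]; exact hp
  -- the invariant homomorphism
  set T : G → ℤ := fun h => ∑ i ∈ Finset.range m, c h ((Φ (g ^ i)).perm x) with hT
  have Tadd : ∀ h ∈ N, ∀ h', T (h' * h) = T h' + T h := by
    intro h hh h'
    simp only [hT]
    rw [← Finset.sum_add_distrib]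
    exact Finset.sum_congr rfl fun i _ => cN h hh h' _
  have T1 : T 1 = 0 := by simp [hT, hcd]
  have Tinv : ∀ h ∈ N, T (g⁻¹ * h * g) = T h := by
    intro h hh
    have h1 : ∀ y, c (g⁻¹ * h * g) y = c h ((Φ g).perm y) := by
      intro y
      rw [cmul, cN h hh]
      have h2 : c g⁻¹ ((Φ g).perm y) + c g y = 0 := by
        rw [← cmul]; simp [hcd]
      linarith
    simp only [hT]
    have h3 : ∀ i, c (g⁻¹ * h * g) ((Φ (g ^ i)).perm x) = c h ((Φ (g ^ (i + 1))).perm x) := by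
      intro i
      rw [h1, pow_succ', map_mul]; rfl
    rw [Finset.sum_congr rfl (fun i _ => h3 i)]
    have h4 := Finset.sum_range_succ (fun i => c h ((Φ (g ^ i)).perm x)) m
    have h5 := Finset.sum_range_succ' (fun i => c h ((Φ (g ^ i)).perm x)) m
    rw [h4] at h5
    rw [hp] at h5
    simp only [pow_zero, map_one, Wr.one_perm, Equiv.Perm.coe_one, id_eq] at h5
    linarith
  have Tpow : ∀ n : ℤ, g ^ n ∈ N → T (g ^ n) = n * κ := by
    intro n hn
    have h1 : ∀ i : ℕ, c (g ^ n) ((Φ (g ^ i)).perm x) = c (g ^ n) x := by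
      intro i
      have h2 : c (g ^ n * g ^ i) x = c (g ^ i * g ^ n) x := by
        rw [← zpow_natCast, ← zpow_add, ← zpow_add, add_comm]
      rw [cmul, cN _ hn] at h2
      linarith
    have h3 : T (g ^ n) = m * c (g ^ n) x := by
      simp only [hT]
      rw [Finset.sum_congr rfl (fun i _ => h1 i)]
      simp
    have hnx : (Φ (g ^ n)).perm x = x := by rw [(memN _).1 hn]; rfl
    have h4 := (cpow n hnx m).1
    have h5 := (cpow m hpz n).1
    rw [← zpow_mul] at h4 h5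
    rw [mul_comm (m : ℤ) n] at h5
    rw [h4, zpow_natCast] at h5
    rw [h3, h5]
  -- the complement
  let L : Subgroup G :=
    { carrier := {h | h ∈ N ∧ T h = 0}
      mul_mem' := by
        rintro a b ⟨ha, ha'⟩ ⟨hb, hb'⟩
        exact ⟨N.mul_mem ha hb, by rw [Tadd b hb, ha', hb', add_zero]⟩
      one_mem' := ⟨N.one_mem, T1⟩
      inv_mem' := by
        rintro a ⟨ha, ha'⟩
        refine ⟨N.inv_mem ha, ?_⟩
        have := Tadd a ha a⁻¹
        rw [inv_mul_cancel, T1, ha'] at this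
        linarith }
  have memL : ∀ h, h ∈ L ↔ h ∈ N ∧ T h = 0 := fun h => Iff.rfl
  have hL2 : ∀ l ∈ L, g⁻¹ * l * g ∈ L := by
    rintro l ⟨hl, hl'⟩
    refine ⟨?_, by rw [Tinv l hl]; exact hl'⟩
    simpa using hNn.conj_mem l hl g⁻¹
  have hL1 : ∀ l ∈ L, g * l * g⁻¹ ∈ L := by
    rintro l ⟨hl, hl'⟩
    have h1 := hNn.conj_mem l hl g
    refine ⟨h1, ?_⟩
    have h2 := Tinv _ h1
    rw [← h2]
    simpa [mul_assoc] using hl'
  have hκ0 : κ ≠ 0 := hc
  have hL3 : ∀ n : ℤ, g ^ n ∈ L → g ^ n = 1 := by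
    rintro n ⟨hn, hn'⟩
    rw [Tpow n hn] at hn'
    rcases mul_eq_zero.1 hn' with h | h
    · rw [h, zpow_zero]
    · exact absurd h hκ0
  set d : ℕ := N.index with hd
  have hd0 : d ≠ 0 := hNfi.index_ne_zero
  have hgd : g ^ (d : ℤ) ∈ N := by rw [zpow_natCast]; exact Subgroup.pow_index_mem N g
  set q : ℕ := (d * κ).natAbs with hq
  have hq0 : q ≠ 0 := by
    rw [hq, Int.natAbs_ne_zero]
    exact mul_ne_zero (by exact_mod_cast hd0) hκ0
  have : NeZero q := ⟨hq0⟩
  let f : N →* Multiplicative (ZMod q) :=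
    MonoidHom.mk' (fun h => Multiplicative.ofAdd ((T h : ℤ) : ZMod q)) (by
      intro a b
      rw [← ofAdd_add, Subgroup.coe_mul, Tadd _ b.2]
      push_cast; rfl)
  have hf : f.ker.FiniteIndex := Subgroup.finiteIndex_ker f
  have hK0 : (f.ker.map N.subtype).FiniteIndex := by
    constructor
    rw [Subgroup.index_map_subtype]
    exact mul_ne_zero hf.index_ne_zero hNfi.index_ne_zero
  refine retract_of_complement L g hL1 hL2 hL3 _ hK0 ?_
  rintro _ ⟨⟨h, hh⟩, hk, rfl⟩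
  have hk1 : ((T h : ℤ) : ZMod q) = 0 := by
    have := (MonoidHom.mem_ker).1 hk
    exact Multiplicative.ofAdd.injective this
  rw [ZMod.intCast_zmod_eq_zero_iff_dvd, hq, Int.natAbs_dvd] at hk1
  obtain ⟨a, ha⟩ := hk1
  refine ⟨h * g ^ (-(d * a) : ℤ), ?_, d * a, ?_⟩
  · have hgda : g ^ (-(d * a) : ℤ) ∈ N := by
      rw [← mul_neg, zpow_mul]; exact N.zpow_mem hgd _
    refine ⟨N.mul_mem hh hgda, ?_⟩
    rw [Tadd _ hgda, Tpow _ hgda, ha]; ring
  · change h = _
    rw [mul_assoc, ← zpow_add]; simp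

end

end Pool.Agent.Q117.VRCA
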