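import Pool.Agent.Q117.VRCA.Glue

/-!
# Elliptic elements
-/

set_option autoImplicit false

namespace Pool.Agent.Q117.VRCA

universe u

section

variable {P Q R : Type u} [Group P] [Group Q] [Group R] (φ : R →* P) (ψ : R →* Q)
  {G : Type u} [Group G] (jP : P →* G) (jQ : Q →* G)

/-- homomorphisms into the groups `Wr X` can be glued -/
def Univ : Prop := ∀ (X : Type u) (f : P →* Wr X) (g : Q →* Wr X), (∀ r, f (φ r) = g (ψ r)) →
  ∃ F : G →* Wr X, (∀ p, F (jP p) = f p) ∧ (∀ q, F (jQ q) = g q)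

variable {φ ψ jP jQ}

theorem Univ.symm (h : Univ φ ψ jP jQ) : Univ ψ φ jQ jP := by
  intro X f g hfg
  obtain ⟨F, h1, h2⟩ := h X g f (fun r => (hfg r).symm)
  exact ⟨F, h2, h1⟩

/-- simultaneous finite quotients -/
theorem exists_sides (hP : VRC P) (hQ : VRC Q) (hφ : Function.Injective φ)
    (hψ : Function.Injective ψ) (c : R) (hcfi : (Subgroup.zpowers c).FiniteIndex)
    (hc : c = 1 ∨ ∀ n : ℤ, c ^ n = 1 → n = 0) (K : Subgroup P) (hK : K.FiniteIndex)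
    (M : Subgroup Q) (hM : M.FiniteIndex) :
    ∃ (e : ℕ) (C : Subgroup R) (_ : C.Normal) (S : Side (QuotientGroup.mk' C) P φ)
      (T : Side (QuotientGroup.mk' C) Q ψ), 0 < e ∧ C = Subgroup.zpowers (c ^ e) ∧
      (∀ p, S.π p = 1 → p ∈ K) ∧ (∀ q, T.π q = 1 → q ∈ M) := by
  obtain ⟨e1, he1, h1⟩ := exists_normal hP φ hφ c hcfi hc K hK
  obtain ⟨e2, he2, h2⟩ := exists_normal hQ ψ hψ c hcfi hc M hM
  obtain ⟨N1, hN1, hf1, hle1, hc1⟩ := h1 e2 he2
  obtain ⟨N2, hN2, hf2, hle2, hc2⟩ := h2 e1 he1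
  rw [mul_comm e2 e1] at hc2
  have hn : (N1.comap φ).Normal := inferInstance
  obtain ⟨S, hS⟩ := Side.exists_side φ N1 (rfl : N1.comap φ = N1.comap φ)
  obtain ⟨T, hT⟩ := Side.exists_side (C := N1.comap φ) ψ N2 (by rw [hc2, hc1])
  exact ⟨e1 * e2, N1.comap φ, hn, S, T, Nat.mul_pos he1 he2, hc1,
    fun p hp => hle1 ((hS p).1 hp), fun q hq => hle2 ((hT q).1 hq)⟩

theorem Side.A_zpow {Rb : Type u} [Group Rb] {ϖ : R →* Rb} {S : Side ϖ P φ} {Λ : P → ℤ}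
    (hΛ : ∀ a b, S.π a = 1 → S.π b = 1 → Λ (a * b) = Λ a + Λ b) (x : S.Y) (k : R)
    (hk : ϖ k = 1) (j : ℤ) : S.A Λ x (k ^ j) = j * S.A Λ x k := by
  rw [Side.A, Side.A]
  have h1 : (S.out x)⁻¹ * φ (k ^ j) * S.out x = ((S.out x)⁻¹ * φ k * S.out x) ^ j := by
    have := conj_zpow (i := j) (a := (S.out x)⁻¹) (b := φ k)
    rw [inv_inv] at this
    rw [map_zpow, this]
  rw [h1]
  refine tau_zpow (K := S.π.ker) (τ := Λ) (fun a ha b hb => hΛ a b ha hb) _ ?_ j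
  rw [MonoidHom.mem_ker]
  simp [S.comm, hk]

/-- a section of the projection to `R ⧸ C` -/
noncomputable def lft (C : Subgroup R) [C.Normal] : R ⧸ C → R := fun h => Quotient.out h

theorem lft_spec (C : Subgroup R) [C.Normal] (h : R ⧸ C) :
    QuotientGroup.mk' C (lft C h) = h := QuotientGroup.out_eq' h

theorem glued (hu : Univ φ ψ jP jQ) {C : Subgroup R} [C.Normal]
    (S : Side (QuotientGroup.mk' C) P φ) (T : Side (QuotientGroup.mk' C) Q ψ) (Λ : P → ℤ)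
    (hΛ : ∀ a b, S.π a = 1 → S.π b = 1 → Λ (a * b) = Λ a + Λ b) (M : Q → ℤ)
    (hM : ∀ a b, T.π a = 1 → T.π b = 1 → M (a * b) = M a + M b)
    (a : S.Y → ℤ) (b : T.Y → ℤ)
    (hab : ∀ x y k, QuotientGroup.mk' C k = 1 → b y * S.A Λ x k = a x * T.A M y k) :
    ∃ F : G →* Wr (S.Y × T.Y),
      (∀ p, F (jP p) = Side.act (lft C) (lft_spec C) Λ hΛ T.Y (fun y => b (T.red y)) p) ∧
      (∀ q, F (jQ q) = Wr.pull (S.sw T)
        (Side.act (lft C) (lft_spec C) M hM S.Y (fun x => a (S.red x)) q)) :=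
  hu _ (Side.act (lft C) (lft_spec C) Λ hΛ T.Y (fun y => b (T.red y)))
    ((Wr.pull (S.sw T)).comp (Side.act (lft C) (lft_spec C) M hM S.Y (fun x => a (S.red x))))
    (Side.compat (lft C) (lft_spec C) Λ hΛ M hM a b hab)

theorem ell_inf (hu : Univ φ ψ jP jQ) (hP : VRC P) (hQ : VRC Q) (hφ : Function.Injective φ)
    (hψ : Function.Injective ψ) (c : R) (hcfi : (Subgroup.zpowers c).FiniteIndex)
    (hc : c = 1 ∨ ∀ n : ℤ, c ^ n = 1 → n = 0) (g : P) (hg : ∀ n : ℤ, g ^ n = 1 → n = 0) :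
    InfWr (jP g) := by
  obtain ⟨K, τ, hK, hτ, hgK, hg1⟩ := vrc_tau hP g hg
  obtain ⟨K', τ', hK', hτ', hc'⟩ : ∃ (K' : Subgroup Q) (τ' : Q → ℤ), K'.FiniteIndex ∧
      (∀ a ∈ K', ∀ b ∈ K', τ' (a * b) = τ' a + τ' b) ∧ (c = 1 ∨ (ψ c ∈ K' ∧ τ' (ψ c) = 1)) := by
    rcases hc with hc | hc
    · exact ⟨⊤, fun _ => 0, inferInstance, by simp, Or.inl hc⟩
    · obtain ⟨K', τ', h1, h2, h3, h4⟩ := vrc_tau hQ (ψ c) (fun n hn => hc n
        (hψ (by rw [map_zpow, hn, map_one])))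
      exact ⟨K', τ', h1, h2, Or.inr ⟨h3, h4⟩⟩
  obtain ⟨e, C, hCn, S, T, he, hC, hSK, hTK⟩ := exists_sides hP hQ hφ hψ c hcfi hc K hK K' hK'
  have hΛ : ∀ a b, S.π a = 1 → S.π b = 1 → τ (a * b) = τ a + τ b :=
    fun a b ha hb => hτ a (hSK a ha) b (hSK b hb)
  have hM : ∀ a b, T.π a = 1 → T.π b = 1 → τ' (a * b) = τ' a + τ' b :=
    fun a b ha hb => hτ' a (hTK a ha) b (hTK b hb)
  have hCe : QuotientGroup.mk' C (c ^ e) = 1 := by
    refine (QuotientGroup.eq_one_iff _).2 ?_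
    rw [hC]; exact Subgroup.mem_zpowers _
  obtain ⟨a, b, hab, hb1⟩ : ∃ (a : S.Y → ℤ) (b : T.Y → ℤ), (∀ x y k, QuotientGroup.mk' C k = 1 →
      b y * S.A τ x k = a x * T.A τ' y k) ∧ b 1 ≠ 0 := by
    rcases hc' with hc' | ⟨hc', hc''⟩
    · refine ⟨fun _ => 1, fun _ => 1, fun x y k hk => ?_, one_ne_zero⟩
      have hk1 : k = 1 := by
        have h1 : k ∈ C := (QuotientGroup.eq_one_iff _).1 hk
        rw [hC, hc', one_pow, Subgroup.zpowers_one_eq_bot, Subgroup.mem_bot] at h1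
        exact h1
      have h2 := Side.A_zpow hΛ x (1 : R) (map_one _) 0
      have h3 := Side.A_zpow hM y (1 : R) (map_one _) 0
      rw [zpow_zero, zero_mul] at h2 h3
      rw [hk1, h2, h3]
    · refine ⟨fun x => S.A τ x (c ^ e), fun y => T.A τ' y (c ^ e), fun x y k hk => ?_, ?_⟩
      · have h1 : k ∈ C := (QuotientGroup.eq_one_iff _).1 hk
        rw [hC] at h1
        obtain ⟨j, rfl⟩ := h1
        simp only
        rw [Side.A_zpow hΛ x _ hCe, Side.A_zpow hM y _ hCe]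
        ring
      · have h4 : ψ (c ^ e) ∈ T.π.ker := by
          rw [MonoidHom.mem_ker, T.comm, hCe, map_one]
        have h5 : T.out 1 ∈ T.π.ker := T.hout 1
        have h2 : T.A τ' 1 (c ^ e) = τ' (ψ (c ^ e)) :=
          tau_conj (N := T.π.ker) (τ := τ') (fun a ha b hb => hM a b ha hb) _ _ h4 h5
        have h3 : τ' (ψ (c ^ e)) = e := by
          rw [← zpow_natCast, map_zpow, tau_zpow hτ' _ hc', hc'']
          ring
        change T.A τ' 1 (c ^ e) ≠ 0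
        rw [h2, h3]
        exact_mod_cast he.ne'
  obtain ⟨F, hF1, hF2⟩ := glued hu S T τ hΛ τ' hM a b hab
  refine ⟨S.Y × T.Y, inferInstance, F, (1, 1), Nat.card S.Y, Nat.card_pos, ?_, ?_⟩
  · rw [← map_pow, hF1, Side.act_perm, map_pow, pow_card_eq_one', mul_one]
  · have h6 : S.π (g ^ Nat.card S.Y) = 1 := by rw [map_pow, pow_card_eq_one']
    rw [← map_pow, hF1, Side.act_coc, Side.al_one _ (lft_spec C) hΛ _ h6, T.red_one]
    rw [← zpow_natCast, tau_zpow hτ _ hgK, hg1, mul_one]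
    exact mul_ne_zero hb1 (by exact_mod_cast Nat.card_pos.ne')

theorem ell_tor (hu : Univ φ ψ jP jQ) (hP : VRC P) (hQ : VRC Q) (hφ : Function.Injective φ)
    (hψ : Function.Injective ψ) (c : R) (hcfi : (Subgroup.zpowers c).FiniteIndex)
    (hc : c = 1 ∨ ∀ n : ℤ, c ^ n = 1 → n = 0) (g : P) (hg : IsOfFinOrder g) :
    FinSep (jP g) := by
  have hfin : Finite (Subgroup.zpowers g) := finite_zpowers.2 hg
  obtain ⟨K, hK, hav⟩ := vrc_avoid hP {x | x ∈ Subgroup.zpowers g ∧ x ≠ 1}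
    ((Set.toFinite (Subgroup.zpowers g : Set P)).subset fun x hx => hx.1) (fun x hx => hx.2)
  obtain ⟨e, C, hCn, S, T, he, hC, hSK, hTK⟩ := exists_sides hP hQ hφ hψ c hcfi hc K hK ⊤
    inferInstance
  obtain ⟨F, hF1, hF2⟩ := glued hu S T (fun _ => 0) (by simp) (fun _ => 0) (by simp)
    (fun _ => 0) (fun _ => 0) (by simp)
  refine ⟨((Wr.permHom _).comp F).ker, MonoidHom.normal_ker _, Subgroup.finiteIndex_ker _, ?_⟩
  intro n hn
  rw [MonoidHom.mem_ker, ← map_zpow] at hn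
  have h1 : (F (jP (g ^ n))).perm = 1 := hn
  rw [hF1] at h1
  have h2 := Side.act_perm (S := S) (lft C) (lft_spec C) (fun _ => 0) (by simp) T.Y
    (fun y => (fun _ => 0) (T.red y)) (g ^ n) 1 1
  rw [h1] at h2
  have h3 : S.π (g ^ n) = 1 := by
    have := congrArg Prod.fst h2
    simpa using this.symm
  have h4 : g ^ n = 1 := by
    by_contra h
    exact hav _ ⟨⟨n, rfl⟩, h⟩ (hSK _ h3)
  rw [← map_zpow, h4, map_one]

end

end Pool.Agent.Q117.VRCA
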