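import Pool.Agent.Q117.VRCA.PSide

/-!
# Gluing actions of the two factors
-/

set_option autoImplicit false

namespace Pool.Agent.Q117.VRCA

universe u

/-- an equivariant map from a group onto an embedded subgroup -/
theorem exists_eqMap {H Y : Type u} [Group H] [Group Y] (i : H →* Y)
    (hi : Function.Injective i) : ∃ s : Y → H, s 1 = 1 ∧ ∀ h y, s (i h * y) = h * s y := by
  classical
  have h1 : ∀ y : Y, ∃ h : H,
      y = i h * (Quotient.out (Quotient.mk (QuotientGroup.rightRel i.range) y)) := by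
    intro y
    have h2 : QuotientGroup.rightRel i.range
        (Quotient.out (Quotient.mk (QuotientGroup.rightRel i.range) y)) y :=
      Quotient.mk_out (s := QuotientGroup.rightRel i.range) y
    rw [QuotientGroup.rightRel_apply] at h2
    obtain ⟨h, hh⟩ := h2
    exact ⟨h, by rw [hh]; group⟩
  choose s' hs' using h1
  have h3 : ∀ h y, s' (i h * y) = h * s' y := by
    intro h y
    apply hi
    have h4 := hs' (i h * y)
    have h5 := hs' y
    have h6 : Quotient.mk (QuotientGroup.rightRel i.range) (i h * y) =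
        Quotient.mk (QuotientGroup.rightRel i.range) y := by
      apply Quotient.sound
      change QuotientGroup.rightRel i.range _ _
      rw [QuotientGroup.rightRel_apply]
      exact ⟨h⁻¹, by rw [map_inv]; group⟩
    rw [h6] at h4
    set o := Quotient.out (Quotient.mk (QuotientGroup.rightRel i.range) y) with ho
    have h7 : i (s' (i h * y)) = (i h * y) * o⁻¹ := eq_mul_inv_of_mul_eq h4.symm
    have h8 : i (s' y) = y * o⁻¹ := eq_mul_inv_of_mul_eq h5.symm
    rw [map_mul, h7, h8, mul_assoc]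
  exact ⟨fun y => s' y * (s' 1)⁻¹, by simp, fun h y => by simp [h3, mul_assoc]⟩

namespace Wr

variable {X X' V : Type u}

/-- transport of structure -/
def pull (e : X ≃ X') : Wr X' →* Wr X where
  toFun a := ⟨(e.trans a.perm).trans e.symm, fun x => a.coc (e x)⟩
  map_one' := by
    apply Wr.ext
    · ext x; simp
    · funext x; simp
  map_mul' a b := by
    apply Wr.ext
    · ext x; simp
    · funext x; simp

@[simp] theorem pull_perm (e : X ≃ X') (a : Wr X') (x : X) :
    (pull e a).perm x = e.symm (a.perm (e x)) := rfl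
@[simp] theorem pull_coc (e : X ≃ X') (a : Wr X') (x : X) :
    (pull e a).coc x = a.coc (e x) := rfl

/-- a permutation of `X` acts on `X × V` with trivial cocycle -/
def ofPerm (X V : Type u) : Equiv.Perm X →* Wr (X × V) where
  toFun a := ⟨Equiv.prodCongr a (Equiv.refl V), fun _ => 0⟩
  map_one' := by
    apply Wr.ext
    · ext x <;> simp
    · funext x; simp
  map_mul' a b := by
    apply Wr.ext
    · ext x <;> simp
    · funext x; simp

@[simp] theorem ofPerm_perm (a : Equiv.Perm X) (x : X) (v : V) :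
    (ofPerm X V a).perm (x, v) = (a x, v) := rfl
@[simp] theorem ofPerm_coc (a : Equiv.Perm X) (x : X × V) :
    (ofPerm X V a).coc x = 0 := rfl

end Wr

/-- a finite quotient of one factor, with the additional choices needed for gluing -/
structure Side {R Rb : Type u} [Group R] [Group Rb] (ϖ : R →* Rb) (P : Type u) [Group P]
    (φ : R →* P) where
  Y : Type u
  [grp : Group Y]
  [fin : Finite Y]
  π : P →* Y
  i : Rb →* Y
  hi : Function.Injective i
  comm : ∀ r, π (φ r) = i (ϖ r)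
  out : Y → P
  hout : ∀ y, π (out y) = y
  s : Y → Rb
  hs1 : s 1 = 1
  hs : ∀ h y, s (i h * y) = h * s y

namespace Side

variable {R Rb P Q : Type u} [Group R] [Group Rb] [Group P] [Group Q] {ϖ : R →* Rb}
  {φ : R →* P} {ψ : R →* Q} (S : Side ϖ P φ) (T : Side ϖ Q ψ) (lift : Rb → R)

instance : Group S.Y := S.grp
instance : Finite S.Y := S.fin

/-- the chosen representative in the right coset -/
def red (x : S.Y) : S.Y := (S.i (S.s x))⁻¹ * x

theorem red_mul (h : Rb) (x : S.Y) : S.red (S.i h * x) = S.red x := by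
  simp [red, S.hs, mul_assoc]

theorem red_one : S.red 1 = 1 := by simp [red, S.hs1]

/-- the section -/
def sg (x : S.Y) : P := φ (lift (S.s x)) * S.out (S.red x)

theorem π_sg (hl : ∀ h, ϖ (lift h) = h) (x : S.Y) : S.π (S.sg lift x) = x := by
  simp [sg, S.comm, hl, S.hout, red]

/-- the cocycle -/
def al (Λ : P → ℤ) (p : P) (x : S.Y) : ℤ := Λ ((S.sg lift (S.π p * x))⁻¹ * p * S.sg lift x)

/-- the local form -/
def A (Λ : P → ℤ) (x : S.Y) (k : R) : ℤ := Λ ((S.out x)⁻¹ * φ k * S.out x)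

variable {S}

theorem al_mul (hl : ∀ h, ϖ (lift h) = h) {Λ : P → ℤ}
    (hΛ : ∀ a b, S.π a = 1 → S.π b = 1 → Λ (a * b) = Λ a + Λ b) (p p' : P) (x : S.Y) :
    S.al lift Λ (p * p') x = S.al lift Λ p (S.π p' * x) + S.al lift Λ p' x := by
  rw [al, al, al, ← hΛ]
  · congr 1
    rw [map_mul, mul_assoc (S.π p)]
    group
  · simp only [map_mul, map_inv, S.π_sg lift hl]
    group
  · simp only [map_mul, map_inv, S.π_sg lift hl]
    group

theorem al_φ (Λ : P → ℤ) (r : R) (x : S.Y) : S.al lift Λ (φ r) x =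
    S.A Λ (S.red x) ((lift (ϖ r * S.s x))⁻¹ * r * lift (S.s x)) := by
  rw [al, A, sg, sg, S.comm, S.red_mul, S.hs]
  congr 1
  simp only [map_mul, map_inv]
  group

theorem al_one (hl : ∀ h, ϖ (lift h) = h) {Λ : P → ℤ}
    (hΛ : ∀ a b, S.π a = 1 → S.π b = 1 → Λ (a * b) = Λ a + Λ b) (p : P) (hp : S.π p = 1) :
    S.al lift Λ p 1 = Λ p := by
  have h1 : S.π (S.sg lift 1) = 1 := S.π_sg lift hl 1
  rw [al, hp, mul_one]
  exact tau_conj (N := S.π.ker) (τ := Λ) (fun a ha b hb => hΛ a b ha hb) p _ hp h1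

/-- the action of `P` on the first factor, weighted -/
def act (hl : ∀ h, ϖ (lift h) = h) (Λ : P → ℤ)
    (hΛ : ∀ a b, S.π a = 1 → S.π b = 1 → Λ (a * b) = Λ a + Λ b) (Z : Type u) (w : Z → ℤ) :
    P →* Wr (S.Y × Z) :=
  MonoidHom.mk' (fun p => ⟨Equiv.prodCongr (Equiv.mulLeft (S.π p)) (Equiv.refl Z),
    fun ξ => w ξ.2 * S.al lift Λ p ξ.1⟩) (by
    intro p p'
    apply Wr.ext
    · ext ξ <;> simp [mul_assoc]
    · funext ξ
      simp only [Wr.mul_coc, Equiv.prodCongr_apply, Prod.map_fst, Prod.map_snd,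
        Equiv.coe_mulLeft, Equiv.refl_apply]
      rw [al_mul lift hl hΛ]; ring)

theorem act_perm (hl : ∀ h, ϖ (lift h) = h) (Λ : P → ℤ)
    (hΛ : ∀ a b, S.π a = 1 → S.π b = 1 → Λ (a * b) = Λ a + Λ b) (Z : Type u) (w : Z → ℤ)
    (p : P) (x : S.Y) (z : Z) :
    (act lift hl Λ hΛ Z w p).perm (x, z) = (S.π p * x, z) := rfl

theorem act_coc (hl : ∀ h, ϖ (lift h) = h) (Λ : P → ℤ)
    (hΛ : ∀ a b, S.π a = 1 → S.π b = 1 → Λ (a * b) = Λ a + Λ b) (Z : Type u) (w : Z → ℤ)
    (p : P) (x : S.Y) (z : Z) :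
    (act lift hl Λ hΛ Z w p).coc (x, z) = w z * S.al lift Λ p x := rfl

variable (S)

/-- the switch -/
def swF (ξ : S.Y × T.Y) : T.Y × S.Y :=
  (T.i (S.s ξ.1 * (T.s ξ.2)⁻¹) * ξ.2, S.i (T.s ξ.2 * (S.s ξ.1)⁻¹) * ξ.1)

theorem swF_swF (ξ : S.Y × T.Y) : swF T S (swF S T ξ) = ξ := by
  obtain ⟨x, y⟩ := ξ
  simp only [swF, S.hs, T.hs]
  apply Prod.ext
  · change S.i _ * (S.i _ * x) = x
    rw [← mul_assoc, ← map_mul]
    simp
  · change T.i _ * (T.i _ * y) = y
    rw [← mul_assoc, ← map_mul]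
    simp

/-- the switch, as a bijection -/
def sw : S.Y × T.Y ≃ T.Y × S.Y := ⟨swF S T, swF T S, swF_swF S T, swF_swF T S⟩

theorem sw_apply (x : S.Y) (y : T.Y) : sw S T (x, y) =
    (T.i (S.s x * (T.s y)⁻¹) * y, S.i (T.s y * (S.s x)⁻¹) * x) := rfl

theorem sw_equivariant (h : Rb) (x : S.Y) (y : T.Y) : sw S T (S.i h * x, y) =
    (T.i h * (sw S T (x, y)).1, (sw S T (x, y)).2) := by
  rw [sw_apply, sw_apply, S.hs]
  apply Prod.ext
  · simp [mul_assoc]
  · simp [mul_assoc]

variable {S T}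

theorem compat (hl : ∀ h, ϖ (lift h) = h) (Λ : P → ℤ)
    (hΛ : ∀ a b, S.π a = 1 → S.π b = 1 → Λ (a * b) = Λ a + Λ b) (M : Q → ℤ)
    (hM : ∀ a b, T.π a = 1 → T.π b = 1 → M (a * b) = M a + M b)
    (a : S.Y → ℤ) (b : T.Y → ℤ)
    (hab : ∀ x y k, ϖ k = 1 → b y * S.A Λ x k = a x * T.A M y k) (r : R) :
    act lift hl Λ hΛ T.Y (fun y => b (T.red y)) (φ r) =
      Wr.pull (sw S T) (act lift hl M hM S.Y (fun x => a (S.red x)) (ψ r)) := by
  apply Wr.ext
  · ext1 ξ
    obtain ⟨x, y⟩ := ξ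
    rw [Wr.pull_perm, act_perm, S.comm]
    rw [← Equiv.symm_apply_apply (sw S T) (S.i (ϖ r) * x, y), sw_equivariant]
    congr 1
    rw [← T.comm]
    rfl
  · funext ξ
    obtain ⟨x, y⟩ := ξ
    rw [Wr.pull_coc, act_coc, sw_apply, act_coc, al_φ, al_φ, S.red_mul, T.red_mul, T.hs]
    rw [inv_mul_cancel_right]
    apply hab
    simp only [map_mul, map_inv, hl]
    group

theorem exists_side {C : Subgroup R} [C.Normal] (φ : R →* P) (N : Subgroup P) [N.Normal]
    [N.FiniteIndex] (hC : N.comap φ = C) :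
    ∃ S : Side (QuotientGroup.mk' C) P φ, ∀ p, S.π p = 1 ↔ p ∈ N := by
  have hk : ∀ r : R, r ∈ C ↔ φ r ∈ N := by
    intro r; rw [← hC, Subgroup.mem_comap]
  let i : R ⧸ C →* P ⧸ N := QuotientGroup.lift C ((QuotientGroup.mk' N).comp φ) (by
    intro r hr
    exact (QuotientGroup.eq_one_iff _).2 ((hk r).1 hr))
  have hi : Function.Injective i := by
    rw [injective_iff_map_eq_one]
    intro r
    induction r using QuotientGroup.induction_on with
    | H r =>
      intro hr
      have h1 : ((φ r : P) : P ⧸ N) = 1 := hr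
      rw [QuotientGroup.eq_one_iff] at h1 ⊢
      exact (hk r).2 h1
  obtain ⟨s, hs1, hs⟩ := exists_eqMap i hi
  refine ⟨{ Y := P ⧸ N, π := QuotientGroup.mk' N, i := i, hi := hi, comm := fun r => rfl,
            out := fun y => Quotient.out y, hout := fun y => QuotientGroup.out_eq' y,
            s := s, hs1 := hs1, hs := hs }, ?_⟩
  intro p
  exact QuotientGroup.eq_one_iff p

end Side

end Pool.Agent.Q117.VRCA
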