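import Pool.Agent.Q117.VRCA.Ell

/-!
# Hyperbolic elements
-/

set_option autoImplicit false

namespace Pool.Agent.Q117.VRCA

universe u

theorem exists_perm_extend {V : Type u} [Finite V] (rel : V → V → Prop)
    (h1 : ∀ a b b', rel a b → rel a b' → b = b') (h2 : ∀ a a' b, rel a b → rel a' b → a = a') :
    ∃ e : Equiv.Perm V, ∀ a b, rel a b → e a = b := by
  classical
  have := Fintype.ofFinite V
  have hex : ∀ a : {a // ∃ b, rel a b}, ∃ b, rel a b := fun a => a.2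
  choose f hf using hex
  let e0 : {a // ∃ b, rel a b} ≃ {b // ∃ a, rel a b} :=
    Equiv.ofBijective (fun a => ⟨f a, a, hf a⟩) ⟨by
      intro a a' h
      have h' : f a = f a' := congrArg Subtype.val h
      apply Subtype.ext
      exact h2 _ _ _ (hf a) (by rw [h']; exact hf a'), by
      rintro ⟨b, a, hab⟩
      refine ⟨⟨a, b, hab⟩, Subtype.ext ?_⟩
      exact h1 _ _ _ (hf ⟨a, b, hab⟩) hab⟩
  refine ⟨e0.extendSubtype, fun a b hab => ?_⟩
  rw [Equiv.extendSubtype_apply_of_mem e0 a ⟨b, hab⟩]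
  exact h1 _ _ _ (hf ⟨a, b, hab⟩) hab

theorem exists_cycle (n : ℕ) (hn : 0 < n) : ∃ (V : Type u) (_ : Finite V) (v : ℕ → V),
    v n = v 0 ∧ (∀ i j, i < n → j < n → v i = v j → i = j) ∧
      (∀ i j, v (i + 1) = v (j + 1) → v i = v j) := by
  have : NeZero n := ⟨hn.ne'⟩
  refine ⟨ULift.{u} (ZMod n), inferInstance, fun j => ULift.up (j : ZMod n), ?_, ?_, ?_⟩
  · simp
  · intro i j hi hj h
    have h' : (i : ZMod n) = (j : ZMod n) := congrArg ULift.down h
    rw [ZMod.natCast_eq_natCast_iff', Nat.mod_eq_of_lt hi, Nat.mod_eq_of_lt hj] at h'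
    exact h'
  · intro i j h
    have h' : ((i + 1 : ℕ) : ZMod n) = ((j + 1 : ℕ) : ZMod n) := congrArg ULift.down h
    push_cast at h'
    exact congrArg ULift.up (add_right_cancel h')

section

variable {P Q R : Type u} [Group P] [Group Q] [Group R] {φ : R →* P} {ψ : R →* Q}
  {G : Type u} [Group G] (jP : P →* G) (jQ : Q →* G)

/-- evaluation of words -/
def E (L : List (P × Q)) : G := (L.map fun x => jP x.1 * jQ x.2).prod

theorem E_nil : E jP jQ [] = 1 := rfl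

theorem E_cons (x : P × Q) (L : List (P × Q)) :
    E jP jQ (x :: L) = jP x.1 * jQ x.2 * E jP jQ L := by simp [E]

theorem E_append (L M : List (P × Q)) : E jP jQ (L ++ M) = E jP jQ L * E jP jQ M := by
  simp [E]

theorem E_pow (L : List (P × Q)) (m : ℕ) :
    E jP jQ (List.replicate m L).flatten = E jP jQ L ^ m := by
  induction m with
  | zero => simp [E_nil]
  | succ k ih => rw [List.replicate_succ, List.flatten_cons, E_append, ih, pow_succ']

variable {jP jQ}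

theorem hyp_core (hu : Univ φ ψ jP jQ) (hj : ∀ r, jP (φ r) = jQ (ψ r)) {X : Type u} [Finite X]
    (F0 : G →* Equiv.Perm X) (L : List (P × Q)) (hL : L ≠ []) (ξ : X)
    (hξ : F0 (E jP jQ L) ξ = ξ)
    (h1 : ∀ x ∈ L, ∀ η r, F0 (jP x.1) η ≠ F0 (jP (φ r)) η)
    (h2 : ∀ x ∈ L, ∀ η r, F0 (jQ x.2) η ≠ F0 (jP (φ r)) η) :
    ∃ (V : Type u) (_ : Finite V) (F : G →* Wr (X × V)) (y : X × V),
      (F (E jP jQ L)).perm y = y ∧ (F (E jP jQ L)).coc y ≠ 0 := by
  classical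
  set n := L.length with hn
  have hn0 : 0 < n := List.length_pos_iff.2 hL
  obtain ⟨V, hV, v, hv1, hv2, hv3⟩ := exists_cycle.{u} n hn0
  set orb : X → Set X := fun η => Set.range (fun r => F0 (jP (φ r)) η) with horb
  have orb_mul : ∀ r η, orb (F0 (jP (φ r)) η) = orb η := by
    intro r η
    apply Set.eq_of_subset_of_subset
    · rintro _ ⟨r', rfl⟩
      refine ⟨r' * r, ?_⟩
      simp only [map_mul, Equiv.Perm.mul_apply]
    · rintro _ ⟨r', rfl⟩
      refine ⟨r' * r⁻¹, ?_⟩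
      change F0 (jP (φ (r' * r⁻¹))) (F0 (jP (φ r)) η) = _
      rw [← Equiv.Perm.mul_apply, ← map_mul, ← map_mul, ← map_mul, inv_mul_cancel_right]
  have orb_eq : ∀ η η', orb η = orb η' → ∃ r, F0 (jP (φ r)) η' = η := by
    intro η η' h
    have : η ∈ orb η := ⟨1, by simp⟩
    rw [h] at this
    exact this
  set x : ℕ → P × Q := fun j => L.getD j (1, 1) with hx
  have hxL : ∀ j < n, x j ∈ L := by
    intro j hj
    rw [hx]
    simp only
    rw [List.getD_eq_getElem _ _ hj]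
    exact List.getElem_mem hj
  have hdrop : ∀ j < n, E jP jQ (L.drop j) =
      jP (x j).1 * jQ (x j).2 * E jP jQ (L.drop (j + 1)) := by
    intro j hj
    rw [List.drop_eq_getElem_cons hj, E_cons, hx]
    simp only
    rw [List.getD_eq_getElem _ _ hj]
  set D : ℕ → X := fun j => F0 (E jP jQ (L.drop j)) ξ with hD
  set D' : ℕ → X := fun j => F0 (jQ (x j).2) (D (j + 1)) with hD'
  have hDn : D n = ξ := by simp [hD, hn, E_nil]
  have hD0 : D 0 = ξ := by simp [hD, hξ]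
  have hDstep : ∀ j < n, F0 (jP (x j).1) (D' j) = D j := by
    intro j hj
    simp only [hD, hD', hdrop j hj, map_mul, Equiv.Perm.mul_apply]
  have ne1 : ∀ j < n, orb (D (j + 1)) ≠ orb (D' j) := by
    intro j hj h
    obtain ⟨r, hr⟩ := orb_eq _ _ h.symm
    exact h2 (x j) (hxL j hj) _ r hr.symm
  have ne2 : ∀ j < n, orb (D j) ≠ orb (D' j) := by
    intro j hj h
    obtain ⟨r, hr⟩ := orb_eq _ _ h
    rw [← hDstep j hj] at hr
    exact h1 (x j) (hxL j hj) _ r hr.symm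
  have hex : ∀ o : Set X, ∃ e : Equiv.Perm V, ∀ w w', (∃ j, j < n ∧ w = v j ∧
      ((o = orb (D (j + 1)) ∧ w' = v (j + 1)) ∨ (o = orb (D' j) ∧ w' = v j))) → e w = w' := by
    intro o
    apply exists_perm_extend
    · rintro w b b' ⟨j, hj, hw, hb⟩ ⟨j', hj', hw', hb'⟩
      have hjj : j = j' := hv2 j j' hj hj' (by rw [← hw, ← hw'])
      subst hjj
      rcases hb with ⟨ho, hb⟩ | ⟨ho, hb⟩ <;> rcases hb' with ⟨ho', hb'⟩ | ⟨ho', hb'⟩
      · rw [hb, hb']
      · exact absurd (ho.symm.trans ho') (ne1 j hj)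
      · exact absurd (ho'.symm.trans ho) (ne1 j hj)
      · rw [hb, hb']
    · have key : ∀ j j', j < n → j' < n → v (j + 1) = v j' → o = orb (D (j + 1)) →
          o = orb (D' j') → False := by
        intro j j' hj hj' hvv ho ho'
        rcases Nat.lt_or_ge (j + 1) n with h | h
        · have := hv2 _ _ h hj' hvv
          subst this
          exact ne2 _ h (ho.symm.trans ho')
        · have h3 : j + 1 = n := le_antisymm hj h
          rw [h3, hv1] at hvv
          have := hv2 _ _ hn0 hj' hvv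
          subst this
          rw [h3, hDn, ← hD0] at ho
          exact ne2 _ hn0 (ho.symm.trans ho')
      rintro w w' b ⟨j, hj, hw, hb⟩ ⟨j', hj', hw', hb'⟩
      rcases hb with ⟨ho, hb⟩ | ⟨ho, hb⟩ <;> rcases hb' with ⟨ho', hb'⟩ | ⟨ho', hb'⟩
      · rw [hw, hw']; exact hv3 _ _ (by rw [← hb, ← hb'])
      · exact (key j j' hj hj' (by rw [← hb, ← hb']) ho ho').elim
      · exact (key j' j hj' hj (by rw [← hb, ← hb']) ho' ho).elim
      · rw [hw, hw', ← hb, ← hb']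
  choose e he using hex
  set κ : Set X → V → ℤ := fun o w => if o = orb (D' 0) ∧ w = v 0 then 1 else 0 with hκ
  let H : Wr (X × V) := ⟨⟨fun y => (y.1, e (orb y.1) y.2), fun y => (y.1, (e (orb y.1)).symm y.2),
    fun y => by simp, fun y => by simp⟩, fun y => κ (orb y.1) y.2⟩
  have Hperm : ∀ η w, H.perm (η, w) = (η, e (orb η) w) := fun _ _ => rfl
  have Hcoc : ∀ η w, H.coc (η, w) = κ (orb η) w := fun _ _ => rfl
  obtain ⟨F, hFP, hFQ⟩ := hu (X × V) ((Wr.ofPerm X V).comp (F0.comp jP))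
    ((MulAut.conj H).toMonoidHom.comp ((Wr.ofPerm X V).comp (F0.comp jQ))) (by
      intro r
      simp only [MonoidHom.comp_apply, MulEquiv.coe_toMonoidHom, MulAut.conj_apply]
      rw [← hj, eq_mul_inv_iff_mul_eq]
      apply Wr.ext
      · ext1 ⟨η, w⟩
        simp only [Wr.mul_perm, Equiv.Perm.mul_apply, Hperm, Wr.ofPerm_perm, orb_mul]
      · funext ⟨η, w⟩
        simp only [Wr.mul_coc, Hcoc, Wr.ofPerm_perm, Wr.ofPerm_coc, orb_mul]
        ring)
  have hFQ' : ∀ q, F (jQ q) = H * Wr.ofPerm X V (F0 (jQ q)) * H⁻¹ := hFQ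
  have hFP' : ∀ p, F (jP p) = Wr.ofPerm X V (F0 (jP p)) := hFP
  have Hinv : ∀ j < n, (H⁻¹).perm (D (j + 1), v (j + 1)) = (D (j + 1), v j) := by
    intro j hj
    rw [Wr.inv_perm, Equiv.Perm.inv_eq_iff_eq, Hperm]
    rw [he (orb (D (j + 1))) (v j) (v (j + 1)) ⟨j, hj, rfl, Or.inl ⟨rfl, rfl⟩⟩]
  have Hfix : ∀ j < n, H.perm (D' j, v j) = (D' j, v j) := by
    intro j hj
    rw [Hperm, he (orb (D' j)) (v j) (v j) ⟨j, hj, rfl, Or.inr ⟨rfl, rfl⟩⟩]
  have main : ∀ k j, j + k = n → (F (E jP jQ (L.drop j))).perm (ξ, v n) = (D j, v j) ∧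
      (F (E jP jQ (L.drop j))).coc (ξ, v n) = if j = 0 then 1 else 0 := by
    intro k
    induction k with
    | zero =>
      intro j hjn
      rw [add_zero] at hjn
      subst hjn
      rw [hDn, hn, List.drop_length, E_nil, map_one, if_neg (by rw [← hn]; exact hn0.ne')]
      exact ⟨rfl, rfl⟩
    | succ k ih =>
      intro j hjn
      have hjn' : j < n := by omega
      obtain ⟨ih1, ih2⟩ := ih (j + 1) (by omega)
      rw [if_neg (Nat.succ_ne_zero j)] at ih2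
      have hq : D' j = F0 (jQ (x j).2) (D (j + 1)) := rfl
      constructor
      · rw [hdrop j hjn', map_mul, map_mul, hFQ', hFP']
        simp only [Wr.mul_perm, Equiv.Perm.mul_apply]
        rw [ih1, Hinv j hjn', Wr.ofPerm_perm _ (D (j + 1)) (v j), ← hq, Hfix j hjn',
          Wr.ofPerm_perm, hDstep j hjn']
      · rw [hdrop j hjn', map_mul, map_mul, hFQ', hFP']
        simp only [Wr.mul_coc, Wr.mul_perm, Equiv.Perm.mul_apply, Wr.ofPerm_coc, Wr.inv_coc]
        rw [ih1, ih2]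
        rw [← Wr.inv_perm, Hinv j hjn', Wr.ofPerm_perm, ← hq, Hcoc, Hcoc]
        simp only [hκ]
        by_cases hj0 : j = 0
        · subst hj0
          rw [if_pos ⟨rfl, rfl⟩, if_neg (fun h => ne1 0 hn0 h.1), if_pos rfl]
          norm_num
        · have hvj : v j ≠ v 0 := fun h => hj0 (hv2 _ _ hjn' hn0 h)
          rw [if_neg (fun h => hvj h.2), if_neg (fun h => hvj h.2), if_neg hj0]
          norm_num
  obtain ⟨m1, m2⟩ := main n 0 (by simp)
  rw [List.drop_zero] at m1 m2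
  refine ⟨V, hV, F, (ξ, v n), ?_, ?_⟩
  · rw [m1, hD0, hv1]
  · rw [m2, if_pos rfl]; norm_num

theorem hyp (hu : Univ φ ψ jP jQ) (hj : ∀ r, jP (φ r) = jQ (ψ r)) (hP : VRC P) (hQ : VRC Q)
    (hφ : Function.Injective φ) (hψ : Function.Injective ψ) (c : R)
    (hcfi : (Subgroup.zpowers c).FiniteIndex) (hc : c = 1 ∨ ∀ n : ℤ, c ^ n = 1 → n = 0)
    (L : List (P × Q)) (hL : L ≠ []) (h : ∀ x ∈ L, (∀ r, x.1 ≠ φ r) ∧ (∀ r, x.2 ≠ ψ r)) :
    InfWr (E jP jQ L) := by
  have hfin : Finite {x // x ∈ L} := L.finite_toSet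
  have hK : ∀ x : {x // x ∈ L}, ∃ K : Subgroup P, K.FiniteIndex ∧
      ∀ k ∈ K, ∀ r, x.1.1 ≠ φ r * k := fun x => vrc_sep hP φ c hcfi x.1.1 (h x.1 x.2).1
  have hM : ∀ x : {x // x ∈ L}, ∃ K : Subgroup Q, K.FiniteIndex ∧
      ∀ k ∈ K, ∀ r, x.1.2 ≠ ψ r * k := fun x => vrc_sep hQ ψ c hcfi x.1.2 (h x.1 x.2).2
  choose K hK1 hK2 using hK
  choose M hM1 hM2 using hM
  obtain ⟨e, C, hCn, S, T, he, hC, hSK, hTK⟩ := exists_sides hP hQ hφ hψ c hcfi hc
    (⨅ x, K x) (Subgroup.finiteIndex_iInf hK1) (⨅ x, M x) (Subgroup.finiteIndex_iInf hM1)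
  obtain ⟨F, hF1, hF2⟩ := glued hu S T (fun _ => 0) (by simp) (fun _ => 0) (by simp)
    (fun _ => 0) (fun _ => 0) (by simp)
  have hp : ∀ x ∈ L, ∀ r, S.π x.1 ≠ S.π (φ r) := by
    intro x hx r hxr
    have h1 : S.π ((φ r)⁻¹ * x.1) = 1 := by rw [map_mul, map_inv, hxr, inv_mul_cancel]
    exact hK2 ⟨x, hx⟩ _ ((Subgroup.mem_iInf.1 (hSK _ h1)) ⟨x, hx⟩) r (by simp)
  have hq : ∀ x ∈ L, ∀ r, T.π x.2 ≠ T.π (ψ r) := by
    intro x hx r hxr
    have h1 : T.π ((ψ r)⁻¹ * x.2) = 1 := by rw [map_mul, map_inv, hxr, inv_mul_cancel]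
    exact hM2 ⟨x, hx⟩ _ ((Subgroup.mem_iInf.1 (hTK _ h1)) ⟨x, hx⟩) r (by simp)
  set F0 : G →* Equiv.Perm (S.Y × T.Y) := (Wr.permHom _).comp F with hF0
  have hF0P : ∀ p, F0 (jP p) = (F (jP p)).perm := fun _ => rfl
  have hF0Q : ∀ q, F0 (jQ q) = (F (jQ q)).perm := fun _ => rfl
  set m := Nat.card (Equiv.Perm (S.Y × T.Y)) with hm
  have hm0 : 0 < m := Nat.card_pos
  set L2 := (List.replicate m L).flatten with hL2
  have hmem : ∀ x ∈ L2, x ∈ L := by
    intro x hx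
    rw [hL2, List.mem_flatten] at hx
    obtain ⟨l, hl, hxl⟩ := hx
    rwa [List.eq_of_mem_replicate hl] at hxl
  have hL2ne : L2 ≠ [] := by
    intro h0
    obtain ⟨x, hx⟩ := List.exists_mem_of_ne_nil L hL
    have : x ∈ L2 := by
      rw [hL2, List.mem_flatten]
      exact ⟨L, List.mem_replicate.2 ⟨hm0.ne', rfl⟩, hx⟩
    rw [h0] at this
    simp at this
  have hE2 : E jP jQ L2 = E jP jQ L ^ m := E_pow jP jQ L m
  obtain ⟨V, hV, F', y, hy1, hy2⟩ := hyp_core hu hj F0 L2 hL2ne (1, 1)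
    (by rw [hE2, map_pow, hm, pow_card_eq_one']; rfl)
    (by
      rintro x hx ⟨a, b⟩ r hxr
      rw [hF0P, hF0P, hF1, hF1, Side.act_perm, Side.act_perm] at hxr
      exact hp x (hmem x hx) r (mul_right_cancel (congrArg Prod.fst hxr)))
    (by
      rintro x hx η r hxr
      rw [hj, hF0Q, hF0Q, hF2, hF2, Wr.pull_perm, Wr.pull_perm] at hxr
      have h3 := (S.sw T).symm.injective hxr
      obtain ⟨a, b⟩ := (S.sw T) η
      rw [Side.act_perm, Side.act_perm] at h3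
      exact hq x (hmem x hx) r (mul_right_cancel (congrArg Prod.fst h3)))
  rw [hE2] at hy1 hy2
  exact ⟨(S.Y × T.Y) × V, inferInstance, F', y, m, hm0, hy1, hy2⟩

end

end Pool.Agent.Q117.VRCA
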