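import Pool.Agent.Q117.VRCA.Hyp

/-!
# Amalgamated products over virtually cyclic subgroups
-/

set_option autoImplicit false

namespace Pool.Agent.Q117.VRCA

universe u

section

variable {P Q R : Type u} [Group P] [Group Q] [Group R] {φ : R →* P} {ψ : R →* Q}
  {G : Type u} [Group G] {jP : P →* G} {jQ : Q →* G}

/-- the alternative, invariant under conjugation -/
def Good (g : G) : Prop := InfWr g ∨ FinSep g

theorem Good.retract {g : G} (h : Good g) : IsVirtualRetract (Subgroup.zpowers g) :=
  h.elim InfWr.retract FinSep.retract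

theorem Good.conj {g : G} (h : Good g) (a : G) : Good (a * g * a⁻¹) :=
  h.elim (fun h => Or.inl (h.conj a)) (fun h => Or.inr (h.conj a))

theorem Good.of_conj {g : G} (a : G) (h : Good (a * g * a⁻¹)) : Good g := by
  have := h.conj a⁻¹
  simpa [mul_assoc] using this

theorem Good.of_swap {a b : G} (h : Good (a * b)) : Good (b * a) := by
  have := h.conj a⁻¹
  simpa [mul_assoc] using this

theorem good_word (hu : Univ φ ψ jP jQ) (hj : ∀ r, jP (φ r) = jQ (ψ r)) (hP : VRC P)
    (hQ : VRC Q) (hφ : Function.Injective φ) (hψ : Function.Injective ψ) (c : R)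
    (hcfi : (Subgroup.zpowers c).FiniteIndex) (hc : c = 1 ∨ ∀ n : ℤ, c ^ n = 1 → n = 0) :
    ∀ (n : ℕ) (L : List (P × Q)), L.length = n → Good (E jP jQ L) := by
  have goodP : ∀ p, Good (jP p) := by
    intro p
    by_cases hp : IsOfFinOrder p
    · exact Or.inr (ell_tor hu hP hQ hφ hψ c hcfi hc p hp)
    · refine Or.inl (ell_inf hu hP hQ hφ hψ c hcfi hc p ?_)
      intro n hn
      by_contra h0
      exact hp (isOfFinOrder_iff_zpow_eq_one.2 ⟨n, h0, hn⟩)
  have goodQ : ∀ q, Good (jQ q) := by
    intro q
    by_cases hq : IsOfFinOrder q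
    · exact Or.inr (ell_tor hu.symm hQ hP hψ hφ c hcfi hc q hq)
    · refine Or.inl (ell_inf hu.symm hQ hP hψ hφ c hcfi hc q ?_)
      intro n hn
      by_contra h0
      exact hq (isOfFinOrder_iff_zpow_eq_one.2 ⟨n, h0, hn⟩)
  intro n
  induction n using Nat.strong_induction_on with
  | _ n ih =>
    intro L hLn
    by_cases hgood : ∀ x ∈ L, (∀ r, x.1 ≠ φ r) ∧ (∀ r, x.2 ≠ ψ r)
    · rcases eq_or_ne L [] with hL | hL
      · subst hL
        have h1 := goodP 1
        rw [map_one] at h1
        exact h1
      · exact Or.inl (hyp hu hj hP hQ hφ hψ c hcfi hc L hL hgood)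
    · push Not at hgood
      obtain ⟨⟨p, q⟩, hxL, hx⟩ := hgood
      obtain ⟨A, B, rfl⟩ := List.append_of_mem hxL
      have hlen : (B ++ A).length + 1 = n := by
        rw [← hLn]; simp; omega
      -- rotate
      have hrot : Good (jP p * jQ q * E jP jQ (B ++ A)) → Good (E jP jQ (A ++ (p, q) :: B)) := by
        intro h
        rw [E_append, E_cons]
        apply Good.of_swap
        rwa [mul_assoc, ← E_append]
      apply hrot
      set M := B ++ A with hM
      by_cases hp : ∃ r, p = φ r
      · obtain ⟨r, rfl⟩ := hp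
        rcases List.eq_nil_or_concat M with hM0 | ⟨M', ⟨p', q'⟩, hM'⟩
        · rw [hM0, E_nil, mul_one, hj, ← map_mul]
          exact goodQ _
        · have hM'' : M = M' ++ [(p', q')] := by rw [hM', List.concat_eq_append]
          apply Good.of_swap
          have h1 : E jP jQ M * (jP (φ r) * jQ q) = E jP jQ (M' ++ [(p', q' * (ψ r * q))]) := by
            rw [hM'', E_append, E_append, E_cons, E_cons, E_nil, hj, map_mul, map_mul]
            group
          rw [h1]
          refine ih _ ?_ _ rfl
          rw [← hlen, hM'']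
          simp
      · have hq : ∃ r, q = ψ r := by
          push Not at hp
          exact hx hp
        obtain ⟨r, rfl⟩ := hq
        rcases M with _ | ⟨⟨p', q'⟩, M'⟩
        · rw [E_nil, mul_one, ← hj, ← map_mul]
          exact goodP _
        · have h1 : jP p * jQ (ψ r) * E jP jQ ((p', q') :: M') =
              E jP jQ ((p * φ r * p', q') :: M') := by
            rw [E_cons, E_cons, ← hj, map_mul, map_mul]
            group
          rw [h1]
          refine ih _ ?_ _ rfl
          rw [← hlen]
          simp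

end

/-- A group is virtually cyclic if it has a cyclic subgroup of finite index. -/
def IsVirtuallyCyclic (R : Type u) [Group R] : Prop := ∃ c : R, (Subgroup.zpowers c).FiniteIndex

section

variable {P Q : Type u} [Group P] [Group Q] {R : Subgroup P} {S : Subgroup Q}

/-- the normal subgroup of the free product `P * Q` generated by the elements `r⁻¹ e(r)` -/
def relSubgroup (e : R ≃* S) : Subgroup (Monoid.Coprod P Q) :=
  Subgroup.normalClosure
    {x | ∃ r : R, x = (Monoid.Coprod.inl (r : P))⁻¹ * Monoid.Coprod.inr (e r : Q)}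

instance (e : R ≃* S) : (relSubgroup e).Normal := Subgroup.normalClosure_normal

/-- The amalgamated free product `P *_{R=S} Q`: the quotient of the free product `P * Q` by the
normal subgroup generated by all `r⁻¹ e(r)`, `r ∈ R`, where `e : R ≃* S` is the given
isomorphism. -/
abbrev Amalgam (e : R ≃* S) : Type u := Monoid.Coprod P Q ⧸ relSubgroup e

theorem vrc_amalgam (e : R ≃* S) (hR : IsVirtuallyCyclic R) (hP : VRC P) (hQ : VRC Q) :
    VRC (Amalgam e) := by
  obtain ⟨c, hcfi, hc⟩ : ∃ c : R, (Subgroup.zpowers c).FiniteIndex ∧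
      (c = 1 ∨ ∀ n : ℤ, c ^ n = 1 → n = 0) := by
    obtain ⟨c, hc⟩ := hR
    by_cases hp : IsOfFinOrder c
    · refine ⟨1, ?_, Or.inl rfl⟩
      have h1 : Finite (Subgroup.zpowers c) := finite_zpowers.2 hp
      have h2 : Finite R := by
        have h3 : Finite (R ⧸ Subgroup.zpowers c) := inferInstance
        exact Finite.of_equiv _ (Subgroup.groupEquivQuotientProdSubgroup
          (s := Subgroup.zpowers c)).symm
      exact Subgroup.finiteIndex_of_finite
    · refine ⟨c, hc, Or.inr fun n hn => ?_⟩
      by_contra h0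
      exact hp (isOfFinOrder_iff_zpow_eq_one.2 ⟨n, h0, hn⟩)
  set jP : P →* Amalgam e := (QuotientGroup.mk' (relSubgroup e)).comp Monoid.Coprod.inl with hjP
  set jQ : Q →* Amalgam e := (QuotientGroup.mk' (relSubgroup e)).comp Monoid.Coprod.inr with hjQ
  set ψ : R →* Q := S.subtype.comp e.toMonoidHom with hψ
  have hj : ∀ r : R, jP (R.subtype r) = jQ (ψ r) := by
    intro r
    apply QuotientGroup.eq.2
    exact Subgroup.subset_normalClosure ⟨r, rfl⟩
  have hu : Univ R.subtype ψ jP jQ := by
    intro X f g hfg
    have hk : relSubgroup e ≤ (Monoid.Coprod.lift f g).ker := by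
      apply Subgroup.normalClosure_le_normal
      rintro _ ⟨r, rfl⟩
      change Monoid.Coprod.lift f g _ = 1
      rw [map_mul, map_inv, Monoid.Coprod.lift_apply_inl, Monoid.Coprod.lift_apply_inr]
      have h1 : f (r : P) = g (e r : Q) := hfg r
      rw [h1, inv_mul_cancel]
    refine ⟨QuotientGroup.lift (relSubgroup e) (Monoid.Coprod.lift f g) hk, ?_, ?_⟩
    · intro p
      change Monoid.Coprod.lift f g (Monoid.Coprod.inl p) = f p
      rw [Monoid.Coprod.lift_apply_inl]
    · intro q
      change Monoid.Coprod.lift f g (Monoid.Coprod.inr q) = g q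
      rw [Monoid.Coprod.lift_apply_inr]
  have hψi : Function.Injective ψ := fun a b h => e.injective (Subtype.ext h)
  have hwords : ∀ g : Amalgam e, ∃ L : List (P × Q), E jP jQ L = g := by
    intro g
    obtain ⟨x, rfl⟩ := QuotientGroup.mk'_surjective (relSubgroup e) g
    induction x using Monoid.Coprod.induction_on with
    | inl p => exact ⟨[(p, 1)], by rw [E_cons, E_nil, map_one, mul_one, mul_one]; rfl⟩
    | inr q => exact ⟨[(1, q)], by rw [E_cons, E_nil, map_one, one_mul, mul_one]; rfl⟩
    | mul x y hx hy =>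
      obtain ⟨L, hL⟩ := hx
      obtain ⟨M, hM⟩ := hy
      exact ⟨L ++ M, by rw [E_append, hL, hM, map_mul]⟩
  intro g
  obtain ⟨L, rfl⟩ := hwords g
  exact (good_word hu hj hP hQ R.subtype_injective hψi c hcfi hc _ L rfl).retract

end

end Pool.Agent.Q117.VRCA
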