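import Pool.Agent.Q117.VRCA.Basic

/-!
# Finite quotients of groups with (VRC)
-/

set_option autoImplicit false

namespace Pool.Agent.Q117.VRCA

universe u

variable {P : Type u} [Group P]

theorem finiteIndex_map_subtype {K : Subgroup P} (hK : K.FiniteIndex) (K' : Subgroup K)
    (hK' : K'.FiniteIndex) : (K'.map K.subtype).FiniteIndex := by
  constructor
  rw [Subgroup.index_map_subtype]
  exact mul_ne_zero hK'.index_ne_zero hK.index_ne_zero

section tau

variable {K : Subgroup P} {τ : P → ℤ}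

theorem tau_one (h : ∀ a ∈ K, ∀ b ∈ K, τ (a * b) = τ a + τ b) : τ 1 = 0 := by
  have := h 1 K.one_mem 1 K.one_mem
  rw [mul_one] at this
  linarith

theorem tau_inv (h : ∀ a ∈ K, ∀ b ∈ K, τ (a * b) = τ a + τ b) (a : P) (ha : a ∈ K) :
    τ a⁻¹ = - τ a := by
  have := h a ha a⁻¹ (K.inv_mem ha)
  rw [mul_inv_cancel, tau_one h] at this
  linarith

theorem tau_zpow (h : ∀ a ∈ K, ∀ b ∈ K, τ (a * b) = τ a + τ b) (a : P) (ha : a ∈ K) (k : ℤ) :
    τ (a ^ k) = k * τ a := by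
  induction k with
  | zero => simp [tau_one h]
  | succ i ih =>
    rw [zpow_add, zpow_one, h _ (K.zpow_mem ha _) _ ha, ih]; ring
  | pred i ih =>
    rw [zpow_sub, zpow_one, h _ (K.zpow_mem ha _) _ (K.inv_mem ha), ih, tau_inv h a ha]; ring

theorem tau_conj {N : Subgroup P} (h : ∀ a ∈ N, ∀ b ∈ N, τ (a * b) = τ a + τ b)
    (a b : P) (ha : a ∈ N) (hb : b ∈ N) : τ (b⁻¹ * a * b) = τ a := by
  rw [h _ (N.mul_mem (N.inv_mem hb) ha) _ hb, h _ (N.inv_mem hb) _ ha, tau_inv h b hb]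
  ring

/-- the subgroup of `K` where `τ` is divisible by `t` has finite index -/
theorem exists_dvd (hK : K.FiniteIndex) (h : ∀ a ∈ K, ∀ b ∈ K, τ (a * b) = τ a + τ b) (t : ℤ)
    (ht : t ≠ 0) : ∃ S : Subgroup P, S.FiniteIndex ∧ ∀ x, x ∈ S ↔ x ∈ K ∧ t ∣ τ x := by
  have : NeZero t.natAbs := ⟨Int.natAbs_ne_zero.2 ht⟩
  let f : K →* Multiplicative (ZMod t.natAbs) :=
    MonoidHom.mk' (fun x => Multiplicative.ofAdd ((τ x : ℤ) : ZMod t.natAbs)) (by
      intro a b
      rw [← ofAdd_add, Subgroup.coe_mul, h _ a.2 _ b.2]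
      push_cast; rfl)
  refine ⟨f.ker.map K.subtype, finiteIndex_map_subtype hK _ (Subgroup.finiteIndex_ker f), ?_⟩
  intro x
  have key : ∀ y : K, y ∈ f.ker ↔ t ∣ τ y := by
    intro y
    rw [MonoidHom.mem_ker]
    constructor
    · intro hy
      have : ((τ y : ℤ) : ZMod t.natAbs) = 0 := Multiplicative.ofAdd.injective hy
      rwa [ZMod.intCast_zmod_eq_zero_iff_dvd, Int.natAbs_dvd] at this
    · intro hy
      have : ((τ y : ℤ) : ZMod t.natAbs) = 0 := by
        rwa [ZMod.intCast_zmod_eq_zero_iff_dvd, Int.natAbs_dvd]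
      exact congrArg Multiplicative.ofAdd this
  constructor
  · rintro ⟨y, hy, rfl⟩
    exact ⟨y.2, (key y).1 hy⟩
  · rintro ⟨hx, hd⟩
    exact ⟨⟨x, hx⟩, (key _).2 hd, rfl⟩

end tau

theorem vrc_tau (hP : VRC P) (g : P) (hg : ∀ n : ℤ, g ^ n = 1 → n = 0) :
    ∃ (K : Subgroup P) (τ : P → ℤ), K.FiniteIndex ∧
      (∀ a ∈ K, ∀ b ∈ K, τ (a * b) = τ a + τ b) ∧ g ∈ K ∧ τ g = 1 := by
  classical
  obtain ⟨K, hK, hle, ρ, hρ⟩ := hP g
  have hgi : ∀ a b : ℤ, g ^ a = g ^ b → a = b := by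
    intro a b hab
    have := hg (a - b) (by rw [zpow_sub, hab, mul_inv_cancel])
    linarith
  have hex : ∀ x : K, ∃ k : ℤ, g ^ k = (ρ x : P) := fun x => (ρ x).2
  choose k hk using hex
  refine ⟨K, fun x => if hx : x ∈ K then k ⟨x, hx⟩ else 0, hK, ?_,
    hle (Subgroup.mem_zpowers g), ?_⟩
  · intro a ha b hb
    dsimp only
    rw [dif_pos ha, dif_pos hb, dif_pos (K.mul_mem ha hb)]
    apply hgi
    rw [zpow_add, hk, hk, hk, ← Subgroup.coe_mul, ← map_mul]
    rfl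
  · dsimp only
    rw [dif_pos (hle (Subgroup.mem_zpowers g))]
    apply hgi
    rw [hk, zpow_one]
    have := hρ ⟨g, Subgroup.mem_zpowers g⟩
    exact congrArg Subtype.val this

theorem vrc_rf (hP : VRC P) (g : P) (hg : g ≠ 1) : ∃ K : Subgroup P, K.FiniteIndex ∧ g ∉ K := by
  by_cases h : ∀ n : ℤ, g ^ n = 1 → n = 0
  · obtain ⟨K, τ, hK, hτ, hgK, h1⟩ := vrc_tau hP g h
    obtain ⟨S, hS, hmem⟩ := exists_dvd hK hτ 2 (by norm_num)
    refine ⟨S, hS, fun hgS => ?_⟩
    have := ((hmem g).1 hgS).2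
    rw [h1] at this
    norm_num at this
  · push Not at h
    obtain ⟨n, hn, hn0⟩ := h
    have hfin : Finite (Subgroup.zpowers g) := by
      have : IsOfFinOrder g := isOfFinOrder_iff_zpow_eq_one.2 ⟨n, hn0, hn⟩
      exact (finite_zpowers.2 this)
    obtain ⟨K, hK, hle, ρ, hρ⟩ := hP g
    refine ⟨ρ.ker.map K.subtype, finiteIndex_map_subtype hK _ (Subgroup.finiteIndex_ker ρ), ?_⟩
    rintro ⟨y, hy, hyg⟩
    have h1 := hρ ⟨g, Subgroup.mem_zpowers g⟩
    have h2 : y = ⟨g, hle (Subgroup.mem_zpowers g)⟩ := Subtype.ext hyg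
    rw [h2] at hy
    rw [(MonoidHom.mem_ker).1 hy] at h1
    exact hg (congrArg Subtype.val h1).symm

theorem vrc_avoid (hP : VRC P) (F : Set P) (hF : F.Finite) (h1 : ∀ x ∈ F, x ≠ 1) :
    ∃ K : Subgroup P, K.FiniteIndex ∧ ∀ x ∈ F, x ∉ K := by
  induction F, hF using Set.Finite.induction_on with
  | empty => exact ⟨⊤, inferInstance, by simp⟩
  | @insert a s _ _ ih =>
    obtain ⟨K, hK, h2⟩ := ih (fun x hx => h1 x (Set.mem_insert_of_mem _ hx))
    obtain ⟨K', hK', h3⟩ := vrc_rf hP a (h1 a (Set.mem_insert _ _))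
    refine ⟨K ⊓ K', inferInstance, ?_⟩
    rintro x hx ⟨hx1, hx2⟩
    rcases Set.mem_insert_iff.1 hx with rfl | hx
    · exact h3 hx2
    · exact h2 x hx hx1

/-- cyclic subgroups are separable -/
theorem vrc_sep_cyclic (hP : VRC P) (c v : P) (hv : v ∉ Subgroup.zpowers c) :
    ∃ K : Subgroup P, K.FiniteIndex ∧ ∀ k ∈ K, ∀ j : ℤ, v ≠ c ^ j * k := by
  obtain ⟨K, hK, hle, ρ, hρ⟩ := hP c
  by_cases hvK : v ∈ K
  · obtain ⟨L0, hL0, hw⟩ := vrc_rf hP ((ρ ⟨v, hvK⟩ : P)⁻¹ * v) (by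
      intro h
      apply hv
      rw [inv_mul_eq_one] at h
      rw [← h]
      exact (ρ ⟨v, hvK⟩).2)
    set L := L0.normalCore with hL
    have hLfi : L.FiniteIndex := inferInstance
    have hLn : L.Normal := inferInstance
    have hwL : ((ρ ⟨v, hvK⟩ : P)⁻¹ * v) ∉ L := fun h => hw (L0.normalCore_le h)
    let f : K →* (P ⧸ L) × (P ⧸ L) := ((QuotientGroup.mk' L).comp K.subtype).prod
      ((QuotientGroup.mk' L).comp ((Subgroup.zpowers c).subtype.comp ρ))
    refine ⟨f.ker.map K.subtype, finiteIndex_map_subtype hK _ (Subgroup.finiteIndex_ker f), ?_⟩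
    rintro _ ⟨k, hk, rfl⟩ j hj
    have hk' := (MonoidHom.mem_ker).1 hk
    have hk1 : (k : P) ∈ L := by
      have := congrArg Prod.fst hk'
      exact (QuotientGroup.eq_one_iff _).1 this
    have hk2 : (ρ k : P) ∈ L := by
      have := congrArg Prod.snd hk'
      exact (QuotientGroup.eq_one_iff _).1 this
    apply hwL
    have hcK : c ^ j ∈ K := hle (Subgroup.zpow_mem_zpowers c j)
    have h1 : (⟨v, hvK⟩ : K) = ⟨c ^ j, hcK⟩ * k := Subtype.ext hj
    have h2 : (ρ ⟨c ^ j, hcK⟩ : P) = c ^ j :=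
      congrArg Subtype.val (hρ ⟨c ^ j, Subgroup.zpow_mem_zpowers c j⟩)
    have h3 : (ρ ⟨v, hvK⟩ : P) = c ^ j * ρ k := by
      rw [h1, map_mul, Subgroup.coe_mul, h2]
    rw [h3, hj]
    have h4 : (c ^ j * (ρ k : P))⁻¹ * (c ^ j * (K.subtype k)) = (ρ k : P)⁻¹ * k := by
      simp only [Subgroup.coe_subtype]; group
    rw [h4]
    exact L.mul_mem (L.inv_mem hk2) hk1
  · refine ⟨K, hK, fun k hk j hj => hvK ?_⟩
    rw [hj]
    exact K.mul_mem (hle (Subgroup.zpow_mem_zpowers c j)) hk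

/-- images of virtually cyclic groups are separable -/
theorem vrc_sep (hP : VRC P) {R : Type u} [Group R] (φ : R →* P) (c : R)
    (hc : (Subgroup.zpowers c).FiniteIndex) (v : P) (hv : ∀ r, v ≠ φ r) :
    ∃ K : Subgroup P, K.FiniteIndex ∧ ∀ k ∈ K, ∀ r, v ≠ φ r * k := by
  have h1 : ∀ q : R ⧸ Subgroup.zpowers c, ∃ K : Subgroup P, K.FiniteIndex ∧
      ∀ k ∈ K, ∀ j : ℤ, (φ q.out)⁻¹ * v ≠ (φ c) ^ j * k := by
    intro q
    apply vrc_sep_cyclic hP
    rintro ⟨j, hj⟩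
    apply hv (q.out * c ^ j)
    rw [map_mul, map_zpow]
    have : (φ c) ^ j = (φ q.out)⁻¹ * v := hj
    rw [this]; group
  choose K hK h2 using h1
  have : Finite (R ⧸ Subgroup.zpowers c) := inferInstance
  refine ⟨⨅ q, K q, ?_, ?_⟩
  · exact Subgroup.finiteIndex_iInf hK
  · intro k hk r hr
    obtain ⟨j, hj⟩ : ∃ j : ℤ, c ^ j = ((r : R ⧸ Subgroup.zpowers c).out)⁻¹ * r := by
      have h := QuotientGroup.eq.1 (QuotientGroup.out_eq' (r : R ⧸ Subgroup.zpowers c))
      exact Subgroup.mem_zpowers_iff.1 h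
    apply h2 (r : R ⧸ Subgroup.zpowers c) k ((Subgroup.mem_iInf.1 hk) _) j
    rw [← map_zpow, hj, map_mul, map_inv, hr]
    group

theorem exists_normal (hP : VRC P) {R : Type u} [Group R] (φ : R →* P)
    (hφ : Function.Injective φ) (c : R) (hcfi : (Subgroup.zpowers c).FiniteIndex)
    (hc : c = 1 ∨ ∀ n : ℤ, c ^ n = 1 → n = 0) (K0 : Subgroup P) (hK0 : K0.FiniteIndex) :
    ∃ e : ℕ, 0 < e ∧ ∀ s : ℕ, 0 < s → ∃ N : Subgroup P, N.Normal ∧ N.FiniteIndex ∧ N ≤ K0 ∧
      N.comap φ = Subgroup.zpowers (c ^ (e * s)) := by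
  rcases hc with rfl | hc
  · -- finite case
    rw [Subgroup.zpowers_one_eq_bot] at hcfi
    have hR : Finite R := by
      have : Finite (R ⧸ (⊥ : Subgroup R)) := inferInstance
      exact Finite.of_equiv _ (QuotientGroup.quotientBot (G := R)).toEquiv
    obtain ⟨K, hK, hav⟩ := vrc_avoid hP (φ '' {r | r ≠ 1}) (Set.toFinite _) (by
      rintro _ ⟨r, hr, rfl⟩ h
      exact hr (hφ (by rw [h, map_one])))
    refine ⟨1, one_pos, fun s _ => ⟨(K0 ⊓ K).normalCore, inferInstance, inferInstance,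
      (Subgroup.normalCore_le _).trans inf_le_left, ?_⟩⟩
    rw [one_pow, Subgroup.zpowers_one_eq_bot, eq_bot_iff]
    intro r hr
    rw [Subgroup.mem_bot]
    by_contra h
    exact hav _ ⟨r, h, rfl⟩ (Subgroup.normalCore_le _ hr).2
  · have hφc : ∀ n : ℤ, φ c ^ n = 1 → n = 0 := by
      intro n hn
      exact hc n (hφ (by rw [map_zpow, hn, map_one]))
    obtain ⟨K, τ, hK, hτ, hcK, hτ1⟩ := vrc_tau hP (φ c) hφc
    set W : Set R := {r | φ r ∈ K ∧ τ (φ r) = 0 ∧ r ≠ 1} with hW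
    have hWfin : W.Finite := by
      have : Finite (R ⧸ Subgroup.zpowers c) := inferInstance
      apply Set.Finite.of_injOn (f := fun r : R => (r : R ⧸ Subgroup.zpowers c))
        (t := Set.univ) (fun _ _ => Set.mem_univ _) _ Set.finite_univ
      rintro r ⟨hr, hr0, _⟩ r' ⟨hr', hr0', _⟩ h
      obtain ⟨j, hj⟩ : ∃ j : ℤ, c ^ j = r⁻¹ * r' := QuotientGroup.eq.1 h
      have h1 : τ (φ c ^ j) = 0 := by
        rw [← map_zpow, hj, map_mul, map_inv, hτ _ (K.inv_mem hr) _ hr', tau_inv hτ _ hr, hr0,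
          hr0']
        rfl
      rw [tau_zpow hτ _ hcK, hτ1, mul_one] at h1
      rw [h1, zpow_zero] at hj
      exact inv_mul_eq_one.1 hj.symm
    obtain ⟨KF, hKF, hav⟩ := vrc_avoid hP (φ '' W) (hWfin.image _) (by
      rintro _ ⟨r, hr, rfl⟩ h
      exact hr.2.2 (hφ (by rw [h, map_one])))
    set K1 : Subgroup P := (K0 ⊓ K ⊓ KF).normalCore with hK1
    have hK1n : K1.Normal := inferInstance
    have hK1f : K1.FiniteIndex := inferInstance
    have hK1le : K1 ≤ K0 ⊓ K ⊓ KF := Subgroup.normalCore_le _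
    have hK1K : ∀ x ∈ K1, x ∈ K := fun x hx => (hK1le hx).1.2
    have hτ' : ∀ a ∈ K1, ∀ b ∈ K1, τ (a * b) = τ a + τ b :=
      fun a ha b hb => hτ a (hK1K a ha) b (hK1K b hb)
    let D : Subgroup R := K1.comap φ
    have hDinj : ∀ r ∈ D, τ (φ r) = 0 → r = 1 := by
      intro r hr h0
      by_contra h
      exact hav _ ⟨r, ⟨hK1K _ hr, h0, h⟩, rfl⟩ (hK1le hr).2
    let f : D →* Multiplicative ℤ := MonoidHom.mk' (fun r => Multiplicative.ofAdd (τ (φ r))) (by
      intro a b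
      rw [← ofAdd_add, Subgroup.coe_mul, map_mul, hτ' _ a.2 _ b.2])
    have hfinj : Function.Injective f := by
      rw [injective_iff_map_eq_one]
      intro a ha
      exact Subtype.ext (hDinj a a.2 (Multiplicative.ofAdd.injective ha))
    have hcyc : IsCyclic D := isCyclic_of_injective f hfinj
    obtain ⟨⟨d, hd⟩, hgen⟩ := hcyc.exists_generator
    have hgen' : ∀ r ∈ D, ∃ k : ℤ, r = d ^ k := by
      intro r hr
      obtain ⟨k, hk⟩ := hgen ⟨r, hr⟩
      exact ⟨k, (congrArg Subtype.val hk).symm⟩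
    set e : ℕ := K1.index with he
    have he0 : e ≠ 0 := hK1f.index_ne_zero
    have hce : c ^ e ∈ D := by
      change φ (c ^ e) ∈ K1
      rw [map_pow]
      exact Subgroup.pow_index_mem K1 (φ c)
    obtain ⟨f0, hf0⟩ := hgen' _ hce
    have hf00 : f0 ≠ 0 := by
      rintro rfl
      rw [zpow_zero, ← zpow_natCast] at hf0
      exact he0 (by exact_mod_cast hc _ hf0)
    have hdne : τ (φ d) ≠ 0 := by
      intro h
      have h1 := hDinj d hd h
      rw [h1, one_zpow, ← zpow_natCast] at hf0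
      exact he0 (by exact_mod_cast hc _ hf0)
    set I : AddSubgroup ℤ := AddSubgroup.closure {v | ∃ x : P, v = τ (x * φ d * x⁻¹)} with hI
    obtain ⟨g0, hg0⟩ := Int.subgroup_cyclic I
    have hg0mem : g0 ∈ I := by rw [hg0]; exact AddSubgroup.subset_closure rfl
    have hdvd : ∀ x : P, g0 ∣ τ (x * φ d * x⁻¹) := by
      intro x
      have : τ (x * φ d * x⁻¹) ∈ I := AddSubgroup.subset_closure ⟨x, rfl⟩
      rw [hg0, ← AddSubgroup.zmultiples_eq_closure, Int.mem_zmultiples_iff] at this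
      exact this
    have hg00 : g0 ≠ 0 := by
      intro h
      have := hdvd 1
      rw [h, zero_dvd_iff] at this
      simp at this
      exact hdne this
    refine ⟨e, Nat.pos_of_ne_zero he0, fun s hs => ?_⟩
    have hs0 : (s : ℤ) ≠ 0 := by exact_mod_cast hs.ne'
    obtain ⟨S, hS, hSmem⟩ := exists_dvd hK1f hτ' (g0 * (f0 * s))
      (mul_ne_zero hg00 (mul_ne_zero hf00 hs0))
    refine ⟨S.normalCore, inferInstance, inferInstance, ?_, ?_⟩
    · intro x hx
      exact (hK1le ((hSmem x).1 (S.normalCore_le hx)).1).1.1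
    · ext r
      rw [Subgroup.mem_comap]
      constructor
      · intro hr
        have hr' : ∀ x : P, x * φ r * x⁻¹ ∈ S := fun x => hr x
        have h1 : φ r ∈ K1 := ((hSmem _).1 (S.normalCore_le hr)).1
        obtain ⟨k, rfl⟩ := hgen' r h1
        have h2 : ∀ v ∈ I, g0 * (f0 * s) ∣ k * v := by
          intro v hv
          induction hv using AddSubgroup.closure_induction with
          | mem v hv =>
            obtain ⟨x, rfl⟩ := hv
            have h3 := ((hSmem _).1 (hr' x)).2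
            have h4 : x * φ (d ^ k) * x⁻¹ = (x * φ d * x⁻¹) ^ k := by
              rw [conj_zpow, map_zpow]
            rw [h4, tau_zpow hτ' _ (hK1n.conj_mem _ hd x)] at h3
            exact h3
          | zero => simp
          | add a b _ _ ha hb => rw [mul_add]; exact dvd_add ha hb
          | neg a _ ha => rw [mul_neg]; exact (dvd_neg).2 ha
        have h5 := h2 g0 hg0mem
        rw [mul_comm k g0] at h5
        have h6 := Int.dvd_of_mul_dvd_mul_left hg00 h5
        obtain ⟨k', rfl⟩ := h6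
        refine ⟨k', ?_⟩
        change (c ^ (e * s)) ^ k' = _
        rw [pow_mul, hf0, ← zpow_natCast (d ^ f0) s, ← zpow_mul, ← zpow_mul, mul_assoc]
      · rintro ⟨k', hk'⟩
        change (c ^ (e * s)) ^ k' = r at hk'
        rw [pow_mul, hf0, ← zpow_natCast (d ^ f0) s, ← zpow_mul, ← zpow_mul] at hk'
        intro x
        rw [hSmem, ← hk']
        have h4 : x * φ (d ^ (f0 * (s * k'))) * x⁻¹ = (x * φ d * x⁻¹) ^ (f0 * (s * k')) := by
          rw [conj_zpow, map_zpow]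
        rw [h4]
        refine ⟨K1.zpow_mem (hK1n.conj_mem _ hd x) _, ?_⟩
        rw [tau_zpow hτ' _ (hK1n.conj_mem _ hd x)]
        obtain ⟨w, hw⟩ := hdvd x
        rw [hw]
        exact ⟨k' * w, by ring⟩

end Pool.Agent.Q117.VRCA
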